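import Mathlib

set_option autoImplicit false

namespace Pool.Agent.Results.MP_03a7fb_al.EntireExample

open MvPowerSeries

/-- The Laplace operator on formal power series in `n` variables. -/
noncomputable def laplacian {n : ℕ} (P : MvPowerSeries (Fin n) ℂ) : MvPowerSeries (Fin n) ℂ :=
  ∑ i : Fin n, pderiv ℂ i (pderiv ℂ i P)

/-- The Hessian matrix of a formal power series in `n` variables. -/
noncomputable def hessian {n : ℕ} (P : MvPowerSeries (Fin n) ℂ) :
    Matrix (Fin n) (Fin n) (MvPowerSeries (Fin n) ℂ) :=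
  Matrix.of fun i j => pderiv ℂ i (pderiv ℂ j P)

/-- Formal power series in four variables over the complex numbers. -/
abbrev R := MvPowerSeries (Fin 4) ℂ

/-- The constant power series `i`. -/
noncomputable def J : R := C Complex.I

theorem J_sq : J * J = -1 := by
  unfold J
  rw [← map_mul, Complex.I_mul_I, map_neg, map_one]

theorem dJ (i : Fin 4) : pderiv ℂ i J = 0 := by
  unfold J
  exact pderiv_C

/-- The exponential series of `z_3 + i z_4`. -/
noncomputable def E : R := fun e =>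
  if e 0 = 0 ∧ e 1 = 0 then Complex.I ^ (e 3) / ((e 2).factorial * (e 3).factorial) else 0

/-- The linear form `z_1 + i z_2`. -/
noncomputable def u : R := X 0 + J * X 1

/-- The linear form `z_3 - i z_4`. -/
noncomputable def v : R := X 2 - J * X 3

theorem coeff_E (e : Fin 4 →₀ ℕ) : coeff e E =
    if e 0 = 0 ∧ e 1 = 0 then Complex.I ^ (e 3) / ((e 2).factorial * (e 3).factorial) else 0 := rfl

theorem dE0 : pderiv ℂ 0 E = 0 := by
  ext e
  rw [coeff_pderiv, coeff_E]
  simp

theorem dE1 : pderiv ℂ 1 E = 0 := by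
  ext e
  rw [coeff_pderiv, coeff_E]
  simp

theorem dE2 : pderiv ℂ 2 E = E := by
  ext e
  rw [coeff_pderiv, coeff_E, coeff_E]
  have h2 : ((e 2).factorial : ℂ) ≠ 0 := by exact_mod_cast (Nat.factorial_ne_zero _)
  have h3 : ((e 3).factorial : ℂ) ≠ 0 := by exact_mod_cast (Nat.factorial_ne_zero _)
  have h4 : ((e 2 : ℂ) + 1) ≠ 0 := by
    have := Nat.cast_ne_zero (R := ℂ).mpr (Nat.succ_ne_zero (e 2))
    push_cast at this; exact this
  by_cases h : e 0 = 0 ∧ e 1 = 0
  · simp [h, Nat.factorial_succ]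
    field_simp
  · simp [h]

theorem dE3 : pderiv ℂ 3 E = J * E := by
  ext e
  unfold J
  rw [coeff_pderiv, coeff_C_mul, coeff_E, coeff_E]
  have h2 : ((e 2).factorial : ℂ) ≠ 0 := by exact_mod_cast (Nat.factorial_ne_zero _)
  have h3 : ((e 3).factorial : ℂ) ≠ 0 := by exact_mod_cast (Nat.factorial_ne_zero _)
  have h4 : ((e 3 : ℂ) + 1) ≠ 0 := by
    have := Nat.cast_ne_zero (R := ℂ).mpr (Nat.succ_ne_zero (e 3))
    push_cast at this; exact this
  by_cases h : e 0 = 0 ∧ e 1 = 0
  · simp [h, Nat.factorial_succ]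
    field_simp
    ring
  · simp [h]

theorem E_ne : E ≠ 0 := by
  intro h
  have := congrArg (coeff (0 : Fin 4 →₀ ℕ)) h
  rw [coeff_E] at this
  simp at this

theorem du0 : pderiv ℂ 0 u = 1 := by
  unfold u
  rw [map_add, Derivation.leibniz, dJ, pderiv_X_self, pderiv_X_of_ne (by decide)]
  simp

theorem du1 : pderiv ℂ 1 u = J := by
  unfold u
  rw [map_add, Derivation.leibniz, dJ, pderiv_X_self, pderiv_X_of_ne (by decide)]
  simp

theorem du2 : pderiv ℂ 2 u = 0 := by
  unfold u
  rw [map_add, Derivation.leibniz, dJ, pderiv_X_of_ne (by decide), pderiv_X_of_ne (by decide)]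
  simp

theorem du3 : pderiv ℂ 3 u = 0 := by
  unfold u
  rw [map_add, Derivation.leibniz, dJ, pderiv_X_of_ne (by decide), pderiv_X_of_ne (by decide)]
  simp

theorem dv0 : pderiv ℂ 0 v = 0 := by
  unfold v
  rw [map_sub, Derivation.leibniz, dJ, pderiv_X_of_ne (by decide), pderiv_X_of_ne (by decide)]
  simp

theorem dv1 : pderiv ℂ 1 v = 0 := by
  unfold v
  rw [map_sub, Derivation.leibniz, dJ, pderiv_X_of_ne (by decide), pderiv_X_of_ne (by decide)]
  simp

theorem dv2 : pderiv ℂ 2 v = 1 := by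
  unfold v
  rw [map_sub, Derivation.leibniz, dJ, pderiv_X_self, pderiv_X_of_ne (by decide)]
  simp

theorem dv3 : pderiv ℂ 3 v = -J := by
  unfold v
  rw [map_sub, Derivation.leibniz, dJ, pderiv_X_self, pderiv_X_of_ne (by decide)]
  simp

theorem u_ne : u ≠ 0 := by
  intro h
  have := congrArg (pderiv ℂ 0) h
  rw [du0] at this
  simp at this

theorem dpow (i : Fin 4) (a : R) (k : ℕ) :
    pderiv ℂ i (a ^ k) = k * a ^ (k - 1) * pderiv ℂ i a := pderiv_pow a k

theorem dnat (i : Fin 4) (k : ℕ) : pderiv ℂ i (k : R) = 0 := by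
  simp

theorem dEpow0 (c : ℕ) : pderiv ℂ 0 (E ^ c) = 0 := by
  rw [dpow, dE0, mul_zero]

theorem dEpow1 (c : ℕ) : pderiv ℂ 1 (E ^ c) = 0 := by
  rw [dpow, dE1, mul_zero]

theorem dEpow2 (c : ℕ) : pderiv ℂ 2 (E ^ c) = c * E ^ c := by
  rw [dpow, dE2]
  rcases c with _ | c
  · simp
  · rw [Nat.add_sub_cancel, pow_succ]
    ring

theorem dEpow3 (c : ℕ) : pderiv ℂ 3 (E ^ c) = J * (c * E ^ c) := by
  rw [dpow, dE3]
  rcases c with _ | c
  · simp
  · rw [Nat.add_sub_cancel, pow_succ]
    ring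

theorem dmono0 (a b c : ℕ) :
    pderiv ℂ 0 (u ^ a * v ^ b * E ^ c) = a * (u ^ (a - 1) * v ^ b * E ^ c) := by
  rw [Derivation.leibniz, Derivation.leibniz, dEpow0, dpow, dpow, du0, dv0]
  simp only [smul_eq_mul]
  ring

theorem dmono1 (a b c : ℕ) :
    pderiv ℂ 1 (u ^ a * v ^ b * E ^ c) = J * (a * (u ^ (a - 1) * v ^ b * E ^ c)) := by
  rw [Derivation.leibniz, Derivation.leibniz, dEpow1, dpow, dpow, du1, dv1]
  simp only [smul_eq_mul]
  ring

theorem dmono2 (a b c : ℕ) :
    pderiv ℂ 2 (u ^ a * v ^ b * E ^ c) =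
      b * (u ^ a * v ^ (b - 1) * E ^ c) + c * (u ^ a * v ^ b * E ^ c) := by
  rw [Derivation.leibniz, Derivation.leibniz, dEpow2, dpow, dpow, du2, dv2]
  simp only [smul_eq_mul]
  ring

theorem dmono3 (a b c : ℕ) :
    pderiv ℂ 3 (u ^ a * v ^ b * E ^ c) =
      J * (c * (u ^ a * v ^ b * E ^ c) - b * (u ^ a * v ^ (b - 1) * E ^ c)) := by
  rw [Derivation.leibniz, Derivation.leibniz, dEpow3, dpow, dpow, du3, dv3]
  simp only [smul_eq_mul]
  ring

theorem dnatmul (i : Fin 4) (k : ℕ) (f : R) : pderiv ℂ i (k * f) = k * pderiv ℂ i f := by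
  rw [Derivation.leibniz, dnat, smul_zero, add_zero, smul_eq_mul]

theorem dJmul (i : Fin 4) (f : R) : pderiv ℂ i (J * f) = J * pderiv ℂ i f := by
  rw [Derivation.leibniz, dJ, smul_zero, add_zero, smul_eq_mul]

/-- The Laplacian of a monomial in `u, v, E`. -/
theorem lap_mono (a b c : ℕ) :
    laplacian (u ^ a * v ^ b * E ^ c) = ((4 * b * c : ℕ) : R) * (u ^ a * v ^ (b - 1) * E ^ c) := by
  have hJ := J_sq
  unfold laplacian
  rw [Fin.sum_univ_four, dmono0, dmono1, dmono2, dmono3, dnatmul, dmono0, dJmul, dnatmul, dmono1,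
    map_add, dnatmul, dnatmul, dmono2, dmono2, dJmul, map_sub, dnatmul, dnatmul, dmono3, dmono3]
  push_cast
  linear_combination (a * ((a - 1 : ℕ) : R) * (u ^ (a - 1 - 1) * v ^ b * E ^ c)
    + (c * (c * (u ^ a * v ^ b * E ^ c) - b * (u ^ a * v ^ (b - 1) * E ^ c))
      - b * (c * (u ^ a * v ^ (b - 1) * E ^ c)
        - ((b - 1 : ℕ) : R) * (u ^ a * v ^ (b - 1 - 1) * E ^ c)))) * hJ

theorem lap_add (f g : R) : laplacian (f + g) = laplacian f + laplacian g := by
  unfold laplacian
  simp only [map_add, Finset.sum_add_distrib]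

theorem lap_zero : laplacian (0 : R) = 0 := by
  unfold laplacian
  simp

theorem lap_natmul (k : ℕ) (f : R) : laplacian ((k : R) * f) = k * laplacian f := by
  unfold laplacian
  simp only [dnatmul, Finset.mul_sum]

theorem lap_iter_add (m : ℕ) : ∀ f g : R, laplacian^[m] (f + g) =
    laplacian^[m] f + laplacian^[m] g := by
  induction m with
  | zero => intro f g; rfl
  | succ m ih => intro f g; rw [Function.iterate_succ_apply, lap_add, ih]; rfl

theorem lap_iter_natmul (m : ℕ) : ∀ (k : ℕ) (f : R), laplacian^[m] ((k : R) * f) =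
    k * laplacian^[m] f := by
  induction m with
  | zero => intro k f; rfl
  | succ m ih => intro k f; rw [Function.iterate_succ_apply, lap_natmul, ih]; rfl

theorem lap_iter_sum (m : ℕ) {ι : Type*} (s : Finset ι) (f : ι → R) :
    laplacian^[m] (∑ i ∈ s, f i) = ∑ i ∈ s, laplacian^[m] (f i) := by
  classical
  induction s using Finset.induction_on with
  | empty =>
    have := lap_iter_natmul m 0 0
    simpa using this
  | insert a s ha ih => rw [Finset.sum_insert ha, Finset.sum_insert ha, lap_iter_add, ih]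

/-- Iterated Laplacian of a monomial in `u, v, E`. -/
theorem lap_iter_mono (m : ℕ) : ∀ a b c : ℕ,
    laplacian^[m] (u ^ a * v ^ b * E ^ c) =
      ((4 ^ m * c ^ m * b.descFactorial m : ℕ) : R) * (u ^ a * v ^ (b - m) * E ^ c) := by
  induction m with
  | zero => intro a b c; simp
  | succ m ih =>
    intro a b c
    rw [Function.iterate_succ_apply', ih, lap_natmul, lap_mono, Nat.descFactorial_succ,
      Nat.sub_sub]
    push_cast
    ring

/-- The example `P = u ^ 2 v + u ^ 3 exp (z_3 + i z_4)`. -/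
noncomputable def P : R := u ^ 2 * v + u ^ 3 * E

/-- The iterated Laplacian of `P ^ (m+1)`. -/
theorem lap_iter_P (m : ℕ) (hm : 1 ≤ m) : laplacian^[m] (P ^ (m + 1)) =
    ((4 ^ m * (m + 1).factorial : ℕ) : R) * (u ^ (2 * m + 3) * E) := by
  unfold P
  rw [add_pow, lap_iter_sum]
  have key : ∀ k ∈ Finset.range (m + 1 + 1),
      laplacian^[m] ((u ^ 2 * v) ^ k * (u ^ 3 * E) ^ (m + 1 - k) * (((m + 1).choose k : ℕ) : R)) =
      if k = m then ((4 ^ m * (m + 1).factorial : ℕ) : R) * (u ^ (2 * m + 3) * E) else 0 := by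
    intro k hk
    have e1 : (u ^ 2 * v) ^ k * (u ^ 3 * E) ^ (m + 1 - k) * (((m + 1).choose k : ℕ) : R) =
      (((m + 1).choose k : ℕ) : R) *
        (u ^ (2 * k + 3 * (m + 1 - k)) * v ^ k * E ^ (m + 1 - k)) := by
      rw [pow_add, pow_mul, pow_mul]
      ring
    rw [e1, lap_iter_natmul, lap_iter_mono]
    have hk' : k < m + 2 := Finset.mem_range.mp hk
    split_ifs with h
    · subst h
      rw [Nat.descFactorial_self, Nat.sub_self, Nat.choose_succ_self_right]
      have : k + 1 - k = 1 := by omega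
      rw [this, Nat.factorial_succ]
      push_cast
      ring
    · rcases lt_or_gt_of_ne h with h1 | h1
      · rw [Nat.descFactorial_eq_zero_iff_lt.mpr h1]
        simp
      · have h2 : k = m + 1 := by omega
        subst h2
        rw [Nat.sub_self, zero_pow (by omega)]
        simp
  rw [Finset.sum_congr rfl key, Finset.sum_ite_eq']
  simp

theorem natCast_ne {k : ℕ} (hk : k ≠ 0) : (k : R) ≠ 0 := by
  intro h
  have h1 := congrArg (constantCoeff (σ := Fin 4) (R := ℂ)) h
  rw [map_natCast, map_zero] at h1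
  exact hk (by exact_mod_cast h1)

theorem uE_ne (k : ℕ) : u ^ k * E ≠ 0 := mul_ne_zero (pow_ne_zero _ u_ne) E_ne

theorem P_ne : P ≠ 0 := by
  intro h
  have h1 := lap_iter_P 1 (le_refl 1)
  rw [h] at h1
  have h4 := mul_ne_zero (natCast_ne (k := 4 ^ 1 * (1 + 1).factorial) (by simp))
    (uE_ne (2 * 1 + 3))
  apply h4
  rw [← h1]
  simp [lap_zero]

theorem lap_iter_P_ne (m : ℕ) : laplacian^[m] (P ^ (m + 1)) ≠ 0 := by
  rcases Nat.eq_zero_or_pos m with h | h
  · subst h
    simpa using P_ne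
  · rw [lap_iter_P m h]
    apply mul_ne_zero
    · apply natCast_ne
      have := Nat.factorial_ne_zero (m + 1)
      positivity
    · exact uE_ne _

theorem P_eq : P = u ^ 2 * v ^ 1 * E ^ 0 + u ^ 3 * v ^ 0 * E ^ 1 := by
  unfold P
  ring

theorem dP0 : pderiv ℂ 0 P = 2 * (u ^ 1 * v ^ 1 * E ^ 0) + 3 * (u ^ 2 * v ^ 0 * E ^ 1) := by
  rw [P_eq, map_add, dmono0, dmono0]
  norm_num

theorem dP1 : pderiv ℂ 1 P =
    J * (2 * (u ^ 1 * v ^ 1 * E ^ 0) + 3 * (u ^ 2 * v ^ 0 * E ^ 1)) := by
  rw [P_eq, map_add, dmono1, dmono1]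
  norm_num
  ring

theorem dP2 : pderiv ℂ 2 P = u ^ 2 * v ^ 0 * E ^ 0 + u ^ 3 * v ^ 0 * E ^ 1 := by
  rw [P_eq, map_add, dmono2, dmono2]
  norm_num

theorem dP3 : pderiv ℂ 3 P = J * (u ^ 3 * v ^ 0 * E ^ 1 - u ^ 2 * v ^ 0 * E ^ 0) := by
  rw [P_eq, map_add, dmono3, dmono3]
  norm_num
  ring

theorem d2 (i : Fin 4) (f : R) : pderiv ℂ i (2 * f) = 2 * pderiv ℂ i f := dnatmul i 2 f
theorem d3 (i : Fin 4) (f : R) : pderiv ℂ i (3 * f) = 3 * pderiv ℂ i f := dnatmul i 3 f

/-- The explicit Hessian matrix. -/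
noncomputable def H (a b c d : R) : Matrix (Fin 4) (Fin 4) R :=
  !![a, J * a, b + c, J * (c - b);
     J * a, -a, J * (b + c), b - c;
     b + c, J * (b + c), d, J * d;
     J * (c - b), b - c, J * d, -d]

theorem e00 : pderiv ℂ 0 (pderiv ℂ 0 P) = 2 * v + 6 * u * E := by
  have hJ := J_sq
  rw [dP0, map_add, d2, d3, dmono0, dmono0]
  norm_num only [Nat.sub_self, Nat.cast_zero, Nat.cast_one, Nat.cast_ofNat, pow_zero, pow_one, mul_one, zero_mul, mul_zero, add_zero, zero_add, sub_zero, zero_sub]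
  linear_combination (0 : R) * hJ

theorem e01 : pderiv ℂ 0 (pderiv ℂ 1 P) = J * (2 * v + 6 * u * E) := by
  have hJ := J_sq
  rw [dP1, dJmul, map_add, d2, d3, dmono0, dmono0]
  norm_num only [Nat.sub_self, Nat.cast_zero, Nat.cast_one, Nat.cast_ofNat, pow_zero, pow_one, mul_one, zero_mul, mul_zero, add_zero, zero_add, sub_zero, zero_sub]
  linear_combination (0 : R) * hJ

theorem e02 : pderiv ℂ 0 (pderiv ℂ 2 P) = 2 * u + 3 * u ^ 2 * E := by
  have hJ := J_sq
  rw [dP2, map_add, dmono0, dmono0]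
  norm_num only [Nat.sub_self, Nat.cast_zero, Nat.cast_one, Nat.cast_ofNat, pow_zero, pow_one, mul_one, zero_mul, mul_zero, add_zero, zero_add, sub_zero, zero_sub]
  linear_combination (0 : R) * hJ

theorem e03 : pderiv ℂ 0 (pderiv ℂ 3 P) = J * (3 * u ^ 2 * E - 2 * u) := by
  have hJ := J_sq
  rw [dP3, dJmul, map_sub, dmono0, dmono0]
  norm_num only [Nat.sub_self, Nat.cast_zero, Nat.cast_one, Nat.cast_ofNat, pow_zero, pow_one, mul_one, zero_mul, mul_zero, add_zero, zero_add, sub_zero, zero_sub]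
  linear_combination (0 : R) * hJ

theorem e10 : pderiv ℂ 1 (pderiv ℂ 0 P) = J * (2 * v + 6 * u * E) := by
  have hJ := J_sq
  rw [dP0, map_add, d2, d3, dmono1, dmono1]
  norm_num only [Nat.sub_self, Nat.cast_zero, Nat.cast_one, Nat.cast_ofNat, pow_zero, pow_one, mul_one, zero_mul, mul_zero, add_zero, zero_add, sub_zero, zero_sub]
  linear_combination (0 : R) * hJ

theorem e11 : pderiv ℂ 1 (pderiv ℂ 1 P) = -(2 * v + 6 * u * E) := by
  have hJ := J_sq
  rw [dP1, dJmul, map_add, d2, d3, dmono1, dmono1]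
  norm_num only [Nat.sub_self, Nat.cast_zero, Nat.cast_one, Nat.cast_ofNat, pow_zero, pow_one, mul_one, zero_mul, mul_zero, add_zero, zero_add, sub_zero, zero_sub]
  linear_combination (2 * v + 6 * u * E) * hJ

theorem e12 : pderiv ℂ 1 (pderiv ℂ 2 P) = J * (2 * u + 3 * u ^ 2 * E) := by
  have hJ := J_sq
  rw [dP2, map_add, dmono1, dmono1]
  norm_num only [Nat.sub_self, Nat.cast_zero, Nat.cast_one, Nat.cast_ofNat, pow_zero, pow_one, mul_one, zero_mul, mul_zero, add_zero, zero_add, sub_zero, zero_sub]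
  linear_combination (0 : R) * hJ

theorem e13 : pderiv ℂ 1 (pderiv ℂ 3 P) = 2 * u - 3 * u ^ 2 * E := by
  have hJ := J_sq
  rw [dP3, dJmul, map_sub, dmono1, dmono1]
  norm_num only [Nat.sub_self, Nat.cast_zero, Nat.cast_one, Nat.cast_ofNat, pow_zero, pow_one, mul_one, zero_mul, mul_zero, add_zero, zero_add, sub_zero, zero_sub]
  linear_combination (3 * u ^ 2 * E - 2 * u) * hJ

theorem e20 : pderiv ℂ 2 (pderiv ℂ 0 P) = 2 * u + 3 * u ^ 2 * E := by
  have hJ := J_sq
  rw [dP0, map_add, d2, d3, dmono2, dmono2]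
  norm_num only [Nat.sub_self, Nat.cast_zero, Nat.cast_one, Nat.cast_ofNat, pow_zero, pow_one, mul_one, zero_mul, mul_zero, add_zero, zero_add, sub_zero, zero_sub]
  linear_combination (0 : R) * hJ

theorem e21 : pderiv ℂ 2 (pderiv ℂ 1 P) = J * (2 * u + 3 * u ^ 2 * E) := by
  have hJ := J_sq
  rw [dP1, dJmul, map_add, d2, d3, dmono2, dmono2]
  norm_num only [Nat.sub_self, Nat.cast_zero, Nat.cast_one, Nat.cast_ofNat, pow_zero, pow_one, mul_one, zero_mul, mul_zero, add_zero, zero_add, sub_zero, zero_sub]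
  linear_combination (0 : R) * hJ

theorem e22 : pderiv ℂ 2 (pderiv ℂ 2 P) = u ^ 3 * E := by
  have hJ := J_sq
  rw [dP2, map_add, dmono2, dmono2]
  norm_num only [Nat.sub_self, Nat.cast_zero, Nat.cast_one, Nat.cast_ofNat, pow_zero, pow_one, mul_one, zero_mul, mul_zero, add_zero, zero_add, sub_zero, zero_sub]
  linear_combination (0 : R) * hJ

theorem e23 : pderiv ℂ 2 (pderiv ℂ 3 P) = J * (u ^ 3 * E) := by
  have hJ := J_sq
  rw [dP3, dJmul, map_sub, dmono2, dmono2]
  norm_num only [Nat.sub_self, Nat.cast_zero, Nat.cast_one, Nat.cast_ofNat, pow_zero, pow_one, mul_one, zero_mul, mul_zero, add_zero, zero_add, sub_zero, zero_sub]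
  linear_combination (0 : R) * hJ

theorem e30 : pderiv ℂ 3 (pderiv ℂ 0 P) = J * (3 * u ^ 2 * E - 2 * u) := by
  have hJ := J_sq
  rw [dP0, map_add, d2, d3, dmono3, dmono3]
  norm_num only [Nat.sub_self, Nat.cast_zero, Nat.cast_one, Nat.cast_ofNat, pow_zero, pow_one, mul_one, zero_mul, mul_zero, add_zero, zero_add, sub_zero, zero_sub]
  linear_combination (0 : R) * hJ

theorem e31 : pderiv ℂ 3 (pderiv ℂ 1 P) = 2 * u - 3 * u ^ 2 * E := by
  have hJ := J_sq
  rw [dP1, dJmul, map_add, d2, d3, dmono3, dmono3]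
  norm_num only [Nat.sub_self, Nat.cast_zero, Nat.cast_one, Nat.cast_ofNat, pow_zero, pow_one, mul_one, zero_mul, mul_zero, add_zero, zero_add, sub_zero, zero_sub]
  linear_combination (3 * u ^ 2 * E - 2 * u) * hJ

theorem e32 : pderiv ℂ 3 (pderiv ℂ 2 P) = J * (u ^ 3 * E) := by
  have hJ := J_sq
  rw [dP2, map_add, dmono3, dmono3]
  norm_num only [Nat.sub_self, Nat.cast_zero, Nat.cast_one, Nat.cast_ofNat, pow_zero, pow_one, mul_one, zero_mul, mul_zero, add_zero, zero_add, sub_zero, zero_sub]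
  linear_combination (0 : R) * hJ

theorem e33 : pderiv ℂ 3 (pderiv ℂ 3 P) = -(u ^ 3 * E) := by
  have hJ := J_sq
  rw [dP3, dJmul, map_sub, dmono3, dmono3]
  norm_num only [Nat.sub_self, Nat.cast_zero, Nat.cast_one, Nat.cast_ofNat, pow_zero, pow_one, mul_one, zero_mul, mul_zero, add_zero, zero_add, sub_zero, zero_sub]
  linear_combination (u ^ 3 * E) * hJ

theorem hess_P : hessian P = H (2 * v + 6 * u * E) (2 * u) (3 * u ^ 2 * E) (u ^ 3 * E) := by
  ext1 i j
  fin_cases i <;> fin_cases j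
  · exact e00
  · exact e01
  · exact e02
  · exact e03
  · exact e10
  · exact e11
  · exact e12
  · exact e13
  · exact e20
  · exact e21
  · exact e22
  · exact e23
  · exact e30
  · exact e31
  · exact e32
  · exact e33

/-- The square of the explicit Hessian matrix. -/
noncomputable def K (p q : R) : Matrix (Fin 4) (Fin 4) R :=
  !![p, J * p, q, J * q;
     J * p, -p, J * q, -q;
     q, J * q, 0, 0;
     J * q, -q, 0, 0]

theorem H_sq (a b c d : R) : H a b c d * H a b c d = K (4 * b * c) (2 * b * d) := by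
  have hJ := J_sq
  ext1 i j
  rw [Matrix.mul_apply, Fin.sum_univ_four]
  fin_cases i <;> fin_cases j
  · change (a) * (a) + (J * a) * (J * a) + ((b + c)) * ((b + c)) + (J * (c - b)) * (J * (c - b)) = (4 * b * c)
    linear_combination (a ^ 2 + (c - b) ^ 2) * hJ
  · change (a) * (J * a) + (J * a) * (-a) + ((b + c)) * (J * (b + c)) + (J * (c - b)) * ((b - c)) = J * (4 * b * c)
    linear_combination ((0 : R)) * hJ
  · change (a) * ((b + c)) + (J * a) * (J * (b + c)) + ((b + c)) * (d) + (J * (c - b)) * (J * d) = (2 * b * d)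
    linear_combination (a * (b + c) + (c - b) * d) * hJ
  · change (a) * (J * (c - b)) + (J * a) * ((b - c)) + ((b + c)) * (J * d) + (J * (c - b)) * (-d) = J * (2 * b * d)
    linear_combination ((0 : R)) * hJ
  · change (J * a) * (a) + (-a) * (J * a) + (J * (b + c)) * ((b + c)) + ((b - c)) * (J * (c - b)) = J * (4 * b * c)
    linear_combination ((0 : R)) * hJ
  · change (J * a) * (J * a) + (-a) * (-a) + (J * (b + c)) * (J * (b + c)) + ((b - c)) * ((b - c)) = -(4 * b * c)
    linear_combination (a ^ 2 + (b + c) ^ 2) * hJ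
  · change (J * a) * ((b + c)) + (-a) * (J * (b + c)) + (J * (b + c)) * (d) + ((b - c)) * (J * d) = J * (2 * b * d)
    linear_combination ((0 : R)) * hJ
  · change (J * a) * (J * (c - b)) + (-a) * ((b - c)) + (J * (b + c)) * (J * d) + ((b - c)) * (-d) = -(2 * b * d)
    linear_combination (a * (c - b) + (b + c) * d) * hJ
  · change ((b + c)) * (a) + (J * (b + c)) * (J * a) + (d) * ((b + c)) + (J * d) * (J * (c - b)) = (2 * b * d)
    linear_combination (a * (b + c) + (c - b) * d) * hJ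
  · change ((b + c)) * (J * a) + (J * (b + c)) * (-a) + (d) * (J * (b + c)) + (J * d) * ((b - c)) = J * (2 * b * d)
    linear_combination ((0 : R)) * hJ
  · change ((b + c)) * ((b + c)) + (J * (b + c)) * (J * (b + c)) + (d) * (d) + (J * d) * (J * d) = 0
    linear_combination ((b + c) ^ 2 + d ^ 2) * hJ
  · change ((b + c)) * (J * (c - b)) + (J * (b + c)) * ((b - c)) + (d) * (J * d) + (J * d) * (-d) = 0
    linear_combination ((0 : R)) * hJ
  · change (J * (c - b)) * (a) + ((b - c)) * (J * a) + (J * d) * ((b + c)) + (-d) * (J * (c - b)) = J * (2 * b * d)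
    linear_combination ((0 : R)) * hJ
  · change (J * (c - b)) * (J * a) + ((b - c)) * (-a) + (J * d) * (J * (b + c)) + (-d) * ((b - c)) = -(2 * b * d)
    linear_combination (a * (c - b) + (b + c) * d) * hJ
  · change (J * (c - b)) * ((b + c)) + ((b - c)) * (J * (b + c)) + (J * d) * (d) + (-d) * (J * d) = 0
    linear_combination ((0 : R)) * hJ
  · change (J * (c - b)) * (J * (c - b)) + ((b - c)) * ((b - c)) + (J * d) * (J * d) + (-d) * (-d) = 0
    linear_combination ((c - b) ^ 2 + d ^ 2) * hJ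

theorem K_sq (p q : R) : K p q * K p q = 0 := by
  have hJ := J_sq
  ext1 i j
  rw [Matrix.mul_apply, Fin.sum_univ_four]
  fin_cases i <;> fin_cases j
  · change (p) * (p) + (J * p) * (J * p) + (q) * (q) + (J * q) * (J * q) = 0
    linear_combination (p ^ 2 + q ^ 2) * hJ
  · change (p) * (J * p) + (J * p) * (-p) + (q) * (J * q) + (J * q) * (-q) = 0
    linear_combination ((0 : R)) * hJ
  · change (p) * (q) + (J * p) * (J * q) + (q) * (0) + (J * q) * (0) = 0
    linear_combination (p * q) * hJ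
  · change (p) * (J * q) + (J * p) * (-q) + (q) * (0) + (J * q) * (0) = 0
    linear_combination ((0 : R)) * hJ
  · change (J * p) * (p) + (-p) * (J * p) + (J * q) * (q) + (-q) * (J * q) = 0
    linear_combination ((0 : R)) * hJ
  · change (J * p) * (J * p) + (-p) * (-p) + (J * q) * (J * q) + (-q) * (-q) = 0
    linear_combination (p ^ 2 + q ^ 2) * hJ
  · change (J * p) * (q) + (-p) * (J * q) + (J * q) * (0) + (-q) * (0) = 0
    linear_combination ((0 : R)) * hJ
  · change (J * p) * (J * q) + (-p) * (-q) + (J * q) * (0) + (-q) * (0) = 0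
    linear_combination (p * q) * hJ
  · change (q) * (p) + (J * q) * (J * p) + (0) * (q) + (0) * (J * q) = 0
    linear_combination (p * q) * hJ
  · change (q) * (J * p) + (J * q) * (-p) + (0) * (J * q) + (0) * (-q) = 0
    linear_combination ((0 : R)) * hJ
  · change (q) * (q) + (J * q) * (J * q) + (0) * (0) + (0) * (0) = 0
    linear_combination (q ^ 2) * hJ
  · change (q) * (J * q) + (J * q) * (-q) + (0) * (0) + (0) * (0) = 0
    linear_combination ((0 : R)) * hJ
  · change (J * q) * (p) + (-q) * (J * p) + (0) * (q) + (0) * (J * q) = 0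
    linear_combination ((0 : R)) * hJ
  · change (J * q) * (J * p) + (-q) * (-p) + (0) * (J * q) + (0) * (-q) = 0
    linear_combination (p * q) * hJ
  · change (J * q) * (q) + (-q) * (J * q) + (0) * (0) + (0) * (0) = 0
    linear_combination ((0 : R)) * hJ
  · change (J * q) * (J * q) + (-q) * (-q) + (0) * (0) + (0) * (0) = 0
    linear_combination (q ^ 2) * hJ

theorem H_nilp (a b c d : R) : (H a b c d) ^ 4 = 0 := by
  have : (H a b c d) ^ 4 = (H a b c d * H a b c d) * (H a b c d * H a b c d) := by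
    rw [← mul_assoc, ← pow_two, ← pow_succ, ← pow_succ]
  rw [this, H_sq, K_sq]

theorem hess_nilp : IsNilpotent (hessian P) := ⟨4, by rw [hess_P, H_nilp]⟩

theorem constantCoeff_u : constantCoeff (σ := Fin 4) (R := ℂ) u = 0 := by
  unfold u
  simp

theorem constantCoeff_v : constantCoeff (σ := Fin 4) (R := ℂ) v = 0 := by
  unfold v
  simp

theorem order_u : 1 ≤ order u := (one_le_order_iff_constCoeff_eq_zero).mpr constantCoeff_u
theorem order_v : 1 ≤ order v := (one_le_order_iff_constCoeff_eq_zero).mpr constantCoeff_v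

theorem order_P : 3 ≤ order P := by
  have h1 : (3 : ℕ∞) ≤ order (u ^ 2 * v) := by
    have ha : (2 : ℕ∞) ≤ order (u ^ 2) := by
      have := le_order_pow_of_constantCoeff_eq_zero 2 constantCoeff_u
      simpa using this
    calc (3 : ℕ∞) = 2 + 1 := by norm_num
      _ ≤ order (u ^ 2) + order v := add_le_add ha order_v
      _ ≤ _ := le_order_mul
  have h2 : (3 : ℕ∞) ≤ order (u ^ 3 * E) := by
    have ha : (3 : ℕ∞) ≤ order (u ^ 3) := by
      have := le_order_pow_of_constantCoeff_eq_zero 3 constantCoeff_u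
      simpa using this
    calc (3 : ℕ∞) = 3 + 0 := by norm_num
      _ ≤ order (u ^ 3) + order E := add_le_add ha zero_le
      _ ≤ _ := le_order_mul
  exact le_trans (le_min h1 h2) min_order_le_add

theorem iter_d2 (k : ℕ) : (pderiv ℂ (2 : Fin 4))^[k + 2] P = u ^ 3 * v ^ 0 * E ^ 1 := by
  induction k with
  | zero =>
    rw [Function.iterate_succ_apply', Function.iterate_succ_apply', Function.iterate_zero_apply,
      dP2, map_add, dmono2, dmono2]
    norm_num
  | succ k ih =>
    rw [show k + 1 + 2 = (k + 2) + 1 by ring, Function.iterate_succ_apply', ih, dmono2]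
    norm_num

theorem coeff_iter (k : ℕ) : ∀ (f : R) (e : Fin 4 →₀ ℕ),
    coeff (e + Finsupp.single 2 k) f = 0 → coeff e ((pderiv ℂ (2 : Fin 4))^[k] f) = 0 := by
  induction k with
  | zero => intro f e h; simpa using h
  | succ k ih =>
    intro f e h
    rw [Function.iterate_succ_apply']
    rw [coeff_pderiv]
    have h1 : coeff (e + Finsupp.single 2 1) ((pderiv ℂ (2 : Fin 4))^[k] f) = 0 := by
      apply ih
      rw [add_assoc, ← Finsupp.single_add, add_comm 1 k]
      exact h
    rw [h1, zero_mul]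

theorem P_not_poly : ¬ ∃ p : MvPolynomial (Fin 4) ℂ, (p : MvPowerSeries (Fin 4) ℂ) = P := by
  rintro ⟨p, hp⟩
  have hne : u ^ 3 * v ^ 0 * E ^ 1 ≠ 0 := by
    rw [pow_zero, mul_one, pow_one]
    exact uE_ne 3
  apply hne
  ext e
  rw [← iter_d2 p.totalDegree, coeff_zero]
  apply coeff_iter
  rw [← hp, MvPolynomial.coeff_coe]
  apply MvPolynomial.coeff_eq_zero_of_totalDegree_lt
  set e' : Fin 4 →₀ ℕ := e + Finsupp.single 2 (p.totalDegree + 2) with he'
  have h0 : e' 2 = e 2 + (p.totalDegree + 2) := by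
    rw [he', Finsupp.add_apply, Finsupp.single_eq_same]
  have h1 : e' 2 ≤ ∑ i ∈ e'.support, e' i := by
    apply Finset.single_le_sum (f := fun i => e' i) (fun i _ => Nat.zero_le _)
    rw [Finsupp.mem_support_iff, h0]
    omega
  omega

/-- The explicit power series `P = u ^ 2 v + u ^ 3 exp w`, where `u = z_1 + i z_2`,
`v = z_3 - i z_4`, `w = z_3 + i z_4`, is not a polynomial, has no terms of degree below `3`, is
Hessian nilpotent, and the vanishing property fails for it: `Δ ^ m P ^ (m + 1) ≠ 0` for all `m`. -/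
theorem result :
    (¬ ∃ p : MvPolynomial (Fin 4) ℂ, (p : MvPowerSeries (Fin 4) ℂ) = P) ∧
    3 ≤ P.order ∧
    IsNilpotent (hessian P) ∧
    ∀ m : ℕ, laplacian^[m] (P ^ (m + 1)) ≠ 0 :=
  ⟨P_not_poly, order_P, hess_nilp, lap_iter_P_ne⟩

end Pool.Agent.Results.MP_03a7fb_al.EntireExample
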